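import Pool.Agent.H.MP_23b0f8_an.C

namespace Pool.Agent.Results.MP_23b0f8_an.Q1

open Pool.Agent.H.MP_23b0f8_an

theorem rational (D : ℚ) (h0 : 0 < D) (h1 : D < 1) (γ x₀ : ℝ) (hγ : Irrational γ)
    (p : ℤ → ℤ × ℤ) (hp : IsStair D γ x₀ p) :
    Diffr (proj D '' Set.range p) ∧ ¬ ∃ j k : ℤ, (D : ℝ) = j * γ + k := by
  constructor
  · have hn : 0 < D.num := Rat.num_pos.2 h0
    have hd : D.num < D.den := Rat.num_lt_denom_iff.2 h1
    obtain ⟨a, g, H⟩ := good_of_rot hγ x₀ D (A := D.num) (B := D.den - D.num) (q := D.den)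
      (by omega) (by omega) (by omega) (by omega)
      (K := fun n => (D.den - D.num) * (p n).1 + D.num * (p n).2) (by simp [hp.1]) (by
        intro n
        have h2 := hp.2 n
        have h3 := congrArg Prod.fst h2
        have h4 := congrArg Prod.snd h2
        rw [Prod.fst_sub] at h3
        rw [Prod.snd_sub] at h4
        split_ifs at h3 h4 ⊢ <;> simp only at h3 h4
        · linear_combination (D.den - D.num) * h3 + D.num * h4
        · linear_combination (D.den - D.num) * h3 + D.num * h4)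
    have hD : (0 : ℝ) < D := by exact_mod_cast h0
    have hs : 0 < √((1 - (D : ℝ)) ^ 2 + D ^ 2) := Real.sqrt_pos.2 (by positivity)
    have hq : (0 : ℝ) < D.den := by exact_mod_cast D.den_pos
    have := H.diffr (h := 1 / (D.den * √((1 - (D : ℝ)) ^ 2 + D ^ 2))) (by positivity)
    rw [← Set.range_comp]
    convert this using 2
    ext n
    simp only [Function.comp, proj]
    have e : (D.num : ℝ) = D * D.den := by rw [Rat.cast_def]; field_simp
    push_cast
    rw [e]
    field_simp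
  · rintro ⟨j, k, h⟩
    by_cases hj : j = 0
    · rw [hj, Int.cast_zero, zero_mul, zero_add] at h
      have h2 : D = k := by exact_mod_cast h
      rw [h2] at h0 h1
      have h3 : 0 < k := by exact_mod_cast h0
      have h4 : k < 1 := by exact_mod_cast h1
      omega
    · exact ((hγ.intCast_mul hj).add_intCast k) ⟨D, h⟩

theorem result :
    (∀ D : ℚ, 0 < D → D < 1 → ∀ γ x₀ : ℝ, Irrational γ → ∀ p : ℤ → ℤ × ℤ, IsStair D γ x₀ p →
      Diffr (proj D '' Set.range p) ∧ ¬ ∃ j k : ℤ, (D : ℝ) = j * γ + k) ∧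
    ¬ ∀ D γ x₀ : ℝ, 0 < D → D < 1 → D ≠ 1 / 2 → Irrational γ → ∀ p : ℤ → ℤ × ℤ,
      IsStair D γ x₀ p → Diffr (proj D '' Set.range p) → ∃ j k : ℤ, D = j * γ + k := by
  refine ⟨rational, fun h => ?_⟩
  have hp : IsStair ((1 / 3 : ℚ) : ℝ) √2 0 (ssum fun n : ℤ =>
      if Int.fract (0 + n * √2) < ((1 / 3 : ℚ) : ℝ) then (0, 1) else (1, 0)) :=
    ⟨by simp [ssum], fun n => ssum_succ _ n⟩
  have := rational (1 / 3) (by norm_num) (by norm_num) √2 0 irrational_sqrt_two _ hp
  exact this.2 (h _ _ _ (by norm_num) (by norm_num) (by norm_num) irrational_sqrt_two _ hp this.1)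

end Pool.Agent.Results.MP_23b0f8_an.Q1
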